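import Pool.Agent.K3h5.IB.Stm

/-!
# Iterated biased random walks: the law of the model (brick LAW of helper5, by helper12)

The model of `Pool.Agent.K3h5.IB.Defs` is a realisation of the iterated random walks.
-/

set_option autoImplicit false

open MeasureTheory Filter Topology

namespace Pool.Agent.K3h12.IB

open Pool.Agent.K3h5.IB

variable {d : ℕ}

lemma vec_opp (e : D d) : vec (opp e) = -vec e := by
  obtain ⟨j, b⟩ := e
  cases b <;> simp [vec, opp, ← Pi.single_neg]

/-- traces are symmetric -/
lemma trace_symm (y : ℕ → V d) (v : V d) (e : D d) (h : (v, e) ∈ trace y) :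
    (v + vec e, opp e) ∈ trace y := by
  obtain ⟨n, ⟨h1, h2⟩ | ⟨h1, h2⟩⟩ := h
  · exact ⟨n, Or.inr ⟨h2, by simp only [vec_opp] at *; rw [h1]; simp⟩⟩
  · exact ⟨n, Or.inl ⟨h2, by simp only [vec_opp] at *; rw [h1]; simp⟩⟩

/-- a nice graph has an edge at `0` -/
lemma edge_zero {δ : Fin d → ℝ} {x : ℕ → S d} (hx : Good δ x) {Z : Set (V d × D d)}
    (hZ : NiceG δ x Z) : ∃ e, ((0 : V d), e) ∈ Z := by
  obtain ⟨c, -, hc⟩ := hx.cuts 0
  obtain ⟨c', hcc, hc'⟩ := hx.cuts (c + 1)
  have hlt := hc.2 c' (by omega)
  have key : ∀ b, Cut δ x b → path0 x b ≠ 0 → ∃ e, ((0 : V d), e) ∈ Z := by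
    intro b hb h0
    rcases Relation.ReflTransGen.cases_head (hZ.conn b hb) with h | ⟨w, ⟨e, he, -⟩, -⟩
    · exact absurd h.symm h0
    · exact ⟨e, he⟩
  by_cases h : path0 x c = 0
  · refine key c' hc' fun h' => ?_
    rw [h, h'] at hlt
    exact lt_irrefl _ hlt
  · exact key c hc h

/-- the vertices of a nice graph are visited by `X^(0)` -/
lemma visited {δ : Fin d → ℝ} {x : ℕ → S d} {Z : Set (V d × D d)} (hZ : NiceG δ x Z) (v : V d)
    (e : D d) (h : (v, e) ∈ Z) : ∃ n, path0 x n = v := by
  obtain ⟨n, ⟨h1, -⟩ | ⟨h1, -⟩⟩ := hZ.sub h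
  · exact ⟨n, h1⟩
  · exact ⟨n + 1, h1⟩

/-- the σ-algebra of the sets which do not depend on the stacks of the level `a` -/
@[reducible] def inv (d a : ℕ) : MeasurableSpace (ℕ → S d) where
  MeasurableSet' A := ∀ x u, repl a x u ∈ A ↔ x ∈ A
  measurableSet_empty := fun _ _ => Iff.rfl
  measurableSet_compl := fun _ h x u => not_congr (h x u)
  measurableSet_iUnion := fun f h x u => by
    simp only [Set.mem_iUnion]
    exact exists_congr fun n => h n x u

theorem t_LAW : S_PROB → S_DEP → S_ONE → S_LAW0 → S_MEAS1 → S_IND → S_GOODAS → S_LAW := by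
  intro hPROB hDEP hONE hLAW0 hMEAS hIND hGOOD d p q hp
  obtain ⟨m1, m2, m3, m4, -⟩ := hMEAS d
  have hprob : IsProbabilityMeasure (PP p q) := (hPROB d p q hp).2.2.1
  have hgood := hGOOD d p q hp
  refine ⟨fun i => ⟨m1 i, ?_⟩, ⟨m2, ?_⟩⟩
  · rcases i with - | i
    · intro A hA n y
      have hbot : past (fun x : ℕ → S d => XX x) 0 = ⊥ := by
        unfold past
        exact iSup_of_empty _
      rw [hbot, MeasurableSpace.measurableSet_bot_iff] at hA
      rcases hA with rfl | rfl
      · simp
      · rw [Set.univ_inter, Measure.restrict_univ]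
        have h1 : ∀ x : ℕ → S d, graph (XX x) 0 = Set.univ := fun x => rfl
        simp only [h1]
        rw [integral_const, probReal_univ, one_smul]
        exact hLAW0 d p q hp n y
    · intro A hA n y
      have hA1 : MeasurableSet A := by
        refine (iSup_le fun j : Fin (i + 1) => ?_ :
          past (fun x : ℕ → S d => XX x) (i + 1) ≤ MeasurableSpace.pi) A hA
        exact (measurable_pi_iff.2 fun n => m1 j n).comap_le
      have hA2 : ∀ x u, repl (i + 1) x u ∈ A ↔ x ∈ A := by
        refine (iSup_le fun j : Fin (i + 1) => ?_ :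
          past (fun x : ℕ → S d => XX x) (i + 1) ≤ inv d (i + 1)) A hA
        rintro B ⟨C, -, rfl⟩ x u
        simp only [Set.mem_preimage]
        rw [(hDEP d x u).2.2.1 (i + 1) j j.2]
      have := hONE d p q hp (i + 1) (fun x => graph (XX x) (i + 1)) (fun b => m4 (i + 1) b)
        (fun x u => by
          show trace (XX (repl (i + 1) x u) i) = trace (XX x i)
          rw [(hDEP d x u).2.2.1 (i + 1) i (Nat.lt_succ_self i)])
        (fun x v e h => trace_symm _ v e h)
        (by
          filter_upwards [hgood] with x hx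
          have hn := (hIND d _ x hx).1 i
          exact ⟨edge_zero hx hn, visited hn⟩)
        A hA1 hA2 n y
      rw [if_neg (Nat.succ_ne_zero i)] at this
      exact this
  · intro A hA n y
    have hA1 : MeasurableSet A := by
      refine (MeasurableSpace.generateFrom_le ?_ :
        sigmaGraph (fun x : ℕ → S d => graphInf (XX x)) ≤ MeasurableSpace.pi) A hA
      rintro _ ⟨a, rfl⟩
      exact m3 a
    have hdep : ∀ (x : ℕ → S d) (u : ℕ × ℕ × Finset (D d) → D d),
        graphInf (XX (repl 0 x u)) = graphInf (XX x) := by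
      intro x u
      have : XX (repl 0 x u) = XX x := funext fun j => (hDEP d x u).2.2.2 j
      rw [this]
    have hA2 : ∀ x u, repl 0 x u ∈ A ↔ x ∈ A := by
      refine (MeasurableSpace.generateFrom_le ?_ :
        sigmaGraph (fun x : ℕ → S d => graphInf (XX x)) ≤ inv d 0) A hA
      rintro _ ⟨a, rfl⟩ x u
      simp only [Set.mem_ofPred_eq]
      rw [hdep]
    have := hONE d p q hp 0 (fun x => graphInf (XX x)) m3 hdep
      (fun x v e h => by
        rw [graphInf, Set.mem_iInter] at h ⊢
        intro i
        rcases i with - | i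
        · exact Set.mem_univ _
        · exact trace_symm _ v e (h (i + 1)))
      (by
        filter_upwards [hgood] with x hx
        have hn := (hIND d _ x hx).2
        exact ⟨edge_zero hx hn, visited hn⟩)
      A hA1 hA2 n y
    rw [if_pos rfl] at this
    exact this

end Pool.Agent.K3h12.IB
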